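import Pool.Agent.Lib_MP_d358f8_ne.Main

/-!
# MP_d358f8_nt (arithmetic quantum unique ergodicity): no escape of mass for `PGL₃(ℤ)`

`M = K \ G / Γ` for `G = PGL₃(ℝ)`, `K = PO(3)`, `Γ = PGL₃(ℤ)`: the positive definite real ternary forms `Y` modulo positive scalars and
modulo `Y ↦ γ Y γᵀ`, `γ ∈ SL₃(ℤ)`. For a continuous cuspidal joint eigenfunction `φ` of the Hecke operators (in particular for every
Hecke-Maass cusp form; nothing is assumed about the Laplace operator) the part of the mass of `|φ|²` on the forms with a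
normalised value `< R⁻²` at a nonzero integral vector is at most `C R^{-κ}` of the whole mass, for every `κ < 1/3`, with `C` depending only on
`κ`. So one compact set of forms carries all but `ε` of the mass of every `φ`: every weak-* limit of the measures
`|φ|² dvol / ‖φ‖²` is a probability measure.
-/

namespace Pool.Agent.Results.MP_d358f8_nt.NoEscape

open MeasureTheory AQ3
open scoped ENNReal MatrixGroups

theorem result :
    (∀ κ : ℝ, κ < 1 / 3 → ∃ C : ℝ, ∀ φ : AQ3.Frm → ℂ, IsCuspEigen φ →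
      ∀ F : Set AQ3.Frm, IsFundamentalDomain SL(3, ℤ) F mu → ∀ R : ℝ, 1 ≤ R →
        ∫⁻ y in F ∩ Short R, ‖φ y‖ₑ ^ 2 ∂mu ≤ ENNReal.ofReal (C * R ^ (-κ)) * ∫⁻ y in F, ‖φ y‖ₑ ^ 2 ∂mu) ∧
    (∀ ε : ℝ, 0 < ε → ∃ K : Set AQ3.Frm, IsCompact K ∧ K ⊆ Pos ∧ ∀ φ : AQ3.Frm → ℂ, IsCuspEigen φ →
      ∀ F : Set AQ3.Frm, IsFundamentalDomain SL(3, ℤ) F mu →
        ∫⁻ y in {y | y ∈ F ∧ ∀ γ : SL(3, ℤ), γ • y ∉ K}, ‖φ y‖ₑ ^ 2 ∂mu ≤
          ENNReal.ofReal ε * ∫⁻ y in F, ‖φ y‖ₑ ^ 2 ∂mu) ∧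
    ∃ F : Set AQ3.Frm, IsFundamentalDomain SL(3, ℤ) F mu := by
  refine ⟨fun κ hκ => ?_, fun ε hε => tight ε hε, exists_fd⟩
  obtain ⟨C, -, hC⟩ := short_decay κ hκ
  exact ⟨C, hC⟩

end Pool.Agent.Results.MP_d358f8_nt.NoEscape
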